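import Pool.Agent.WRA.UpTri
import Pool.Agent.WRA.LowTri
import Pool.Agent.WRA.UpPol
import Pool.Agent.WRA.Union

set_option autoImplicit false

/-!
# NP, coNP, PP, PSPACE for weakly read-once linear branching programs

The modes of the class of the (nearly) weakly read-once deterministic linear branching programs (at
each node a linear form over the field with two elements is tested): NP and coNP mode are contained
in PP mode and PP mode in PSPACE mode, and all the inclusions are proper: explicit functions which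
are easy with ordinary read-once programs separate the modes.
-/

namespace Pool.Agent.WRA.Retired.WeaklyReadOnceLinearModes

open Pool.Agent.WRA
open Pool.Agent.WRL (Prog)
open Pool.Agent.UM (InPP InParity InPSPACE InGap)

/-- (1) The inclusions. (2) `PolZero t m`: PP mode of ordinary programs, but exponential in NP and in
coNP mode of nearly read-once linear programs, also for nondeterministic linear programs. (3) The
trace of the product of three field elements: parity mode and PSPACE mode of ordinary programs, but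
exponential in PP mode (or randomised with a small gap) of nearly read-once linear programs, and
hard on average. -/
theorem result :
    (∀ (I : Type) [Finite I] (k s W : ℕ) (L : (I → ZMod 2) → Prop),
      (InNP (ByLBP I k s) W L → InPP (ByLBP I k s) (W + 1) L) ∧
      (InCoNP (ByLBP I k s) W L → InPP (ByLBP I k s) (W + 1) L) ∧
      (InPP (ByLBP I k s) W L → InPSPACE (ByLBP I k s) (W * (W + 3) / 2) L)) ∧
    (∀ t m k : ℕ, 0 < m → 7 * m + 3 * k + 4 ≤ t →
      InPP (ByOrd (Option (Fin (t + m) ⊕ Fin (t + m))) (8 * (t + m + 1))) (Nat.clog 2 (4 * m))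
        (PolZero t m) ∧
      (∀ P : Prog (Option (Fin (t + m) ⊕ Fin (t + m)) → ZMod 2),
        ((∀ z, P.Acc z ↔ PolZero t m z) ∨ ∀ z, P.Acc z ↔ ¬ PolZero t m z) →
        (∀ z, P.Acc z → P.AccTop k z ∨ P.AccBot k z) →
          2 ^ m ≤ 24 * (∑ i ∈ Finset.range (k + 2), (2 * (t + m) + 1).choose i) * P.size) ∧
      ∀ s W : ℕ, (InNP (ByLBP (Option (Fin (t + m) ⊕ Fin (t + m))) k s) W (PolZero t m) ∨
        InCoNP (ByLBP (Option (Fin (t + m) ⊕ Fin (t + m))) k s) W (PolZero t m)) →
          2 ^ m ≤
            24 * (∑ i ∈ Finset.range (k + 2), (2 * (t + m) + 1).choose i) * (2 ^ W * s + 2)) ∧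
    ∀ (n b k : ℕ), 6 * b + 2 * k + 3 ≤ n → ∀ α : Module.Basis (Fin n) (ZMod 2) (GaloisField 2 n),
      InParity (ByOrd (Fin 3 × Fin n) 8) (Nat.clog 2 (n ^ 3)) (fun z => tri α z = 1) ∧
      InPSPACE (ByOrd (Fin 3 × Fin n) 8) (2 * Nat.clog 2 (n ^ 3)) (fun z => tri α z = 1) ∧
      (∀ s W : ℕ, (InPP (ByLBP (Fin 3 × Fin n) k s) W (fun z => tri α z = 1) ∨
        InGap (ByLBP (Fin 3 × Fin n) k s) W (fun z => tri α z = 1)) → 2 ^ b ≤ 7 * s * 2 ^ W) ∧
      ∀ P : LBP (Fin 3 × Fin n → ZMod 2), P.Near k →
        2 * 2 ^ b * Nat.card {z // P.Accepts z ↔ tri α z = 1} ≤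
          (2 ^ b + 2 * P.size + 1) * 2 ^ (3 * n) :=
  ⟨fun I _ k s W L => inclusions I k s W L,
    fun t m k hm ht => ⟨pol_pp t m hm, fun P hacc hk => pol_lower t m k hm ht P hacc hk,
      fun s W h => pol_np t m k s W hm ht h⟩,
    fun _ b k h α => ⟨tri_parity α, tri_pspace α, fun s W hL => tri_pp α h hL,
      fun P hP => tri_avg α h P hP⟩⟩

end Pool.Agent.WRA.Retired.WeaklyReadOnceLinearModes
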